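import Mathlib
import Pool.Agent.H51.Car.Core

/-!
# Averages over finite types: elementary tools
-/

open Finset Filter Topology

namespace H52.CarAvg

open H51.Car

section ind

theorem ind_of {p : Prop} (h : p) : ind p = 1 := by
  unfold ind; simp [h]

theorem ind_of_not {p : Prop} (h : ¬ p) : ind p = 0 := by
  unfold ind; simp [h]

theorem ind_nonneg (p : Prop) : 0 ≤ ind p := by
  by_cases h : p
  · rw [ind_of h]; norm_num
  · rw [ind_of_not h]

theorem ind_le_one (p : Prop) : ind p ≤ 1 := by
  by_cases h : p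
  · rw [ind_of h]
  · rw [ind_of_not h]; norm_num

theorem ind_mono {p q : Prop} (h : p → q) : ind p ≤ ind q := by
  by_cases hp : p
  · rw [ind_of hp, ind_of (h hp)]
  · rw [ind_of_not hp]; exact ind_nonneg q

theorem ind_congr {p q : Prop} (h : p ↔ q) : ind p = ind q := by
  rw [propext h]

theorem ind_or_le (p q : Prop) : ind (p ∨ q) ≤ ind p + ind q := by
  have h1 := ind_nonneg p
  have h2 := ind_nonneg q
  by_cases hp : p
  · rw [ind_of hp, ind_of (Or.inl hp)]; linarith
  · by_cases hq : q
    · rw [ind_of hq, ind_of (Or.inr hq)]; linarith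
    · rw [ind_of_not (by tauto)]; linarith

theorem ind_and (p q : Prop) : ind (p ∧ q) = ind p * ind q := by
  by_cases hp : p
  · by_cases hq : q
    · rw [ind_of hp, ind_of hq, ind_of ⟨hp, hq⟩]; norm_num
    · rw [ind_of_not hq, ind_of_not (by tauto)]; ring
  · rw [ind_of_not hp, ind_of_not (by tauto)]; ring

end ind

section avg

variable {α β : Type*} [Fintype α] [Fintype β]

theorem avg_add (f g : α → ℝ) : avg (fun a => f a + g a) = avg f + avg g := by
  unfold avg; rw [Finset.sum_add_distrib, add_div]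

theorem avg_sub (f g : α → ℝ) : avg (fun a => f a - g a) = avg f - avg g := by
  unfold avg; rw [Finset.sum_sub_distrib, sub_div]

theorem avg_neg (f : α → ℝ) : avg (fun a => - f a) = - avg f := by
  unfold avg; rw [Finset.sum_neg_distrib, neg_div]

theorem avg_mul_left (c : ℝ) (f : α → ℝ) : avg (fun a => c * f a) = c * avg f := by
  unfold avg; rw [← Finset.mul_sum, mul_div_assoc]

theorem avg_mul_right (c : ℝ) (f : α → ℝ) : avg (fun a => f a * c) = avg f * c := by
  unfold avg; rw [← Finset.sum_mul, mul_div_right_comm]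

theorem avg_div_right (c : ℝ) (f : α → ℝ) : avg (fun a => f a / c) = avg f / c := by
  simp only [div_eq_mul_inv]; exact avg_mul_right _ _

theorem avg_sum {ι : Type*} (t : Finset ι) (f : ι → α → ℝ) :
    avg (fun a => ∑ i ∈ t, f i a) = ∑ i ∈ t, avg (f i) := by
  unfold avg; rw [Finset.sum_comm, Finset.sum_div]

theorem avg_const [Nonempty α] (c : ℝ) : avg (fun _ : α => c) = c := by
  unfold avg
  rw [Finset.sum_const, Finset.card_univ, nsmul_eq_mul]
  have : (Fintype.card α : ℝ) ≠ 0 := by exact_mod_cast Fintype.card_ne_zero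
  field_simp

theorem avg_zero : avg (fun _ : α => (0 : ℝ)) = 0 := by
  unfold avg; simp

theorem avg_mono {f g : α → ℝ} (h : ∀ a, f a ≤ g a) : avg f ≤ avg g := by
  unfold avg
  exact div_le_div_of_nonneg_right (Finset.sum_le_sum fun a _ => h a) (Nat.cast_nonneg _)

theorem avg_nonneg {f : α → ℝ} (h : ∀ a, 0 ≤ f a) : 0 ≤ avg f := by
  unfold avg
  exact div_nonneg (Finset.sum_nonneg fun a _ => h a) (Nat.cast_nonneg _)

theorem avg_congr {f g : α → ℝ} (h : ∀ a, f a = g a) : avg f = avg g := by
  unfold avg; rw [Finset.sum_congr rfl fun a _ => h a]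

theorem abs_avg_le (f : α → ℝ) : |avg f| ≤ avg (fun a => |f a|) := by
  unfold avg
  rw [abs_div, Nat.abs_cast]
  exact div_le_div_of_nonneg_right (Finset.abs_sum_le_sum_abs _ _) (Nat.cast_nonneg _)

theorem avg_le_const {f : α → ℝ} {c : ℝ} (hc : 0 ≤ c) (h : ∀ a, f a ≤ c) : avg f ≤ c := by
  rcases isEmpty_or_nonempty α with hα | hα
  · have : avg f = 0 := by unfold avg; simp
    rw [this]; exact hc
  · calc avg f ≤ avg (fun _ : α => c) := avg_mono h
      _ = c := avg_const c

theorem sq_avg_le (f : α → ℝ) : (avg f) ^ 2 ≤ avg (fun a => (f a) ^ 2) := by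
  rcases isEmpty_or_nonempty α with hα | hα
  · have h1 : avg f = 0 := by unfold avg; simp
    have h2 : avg (fun a => (f a) ^ 2) = 0 := by unfold avg; simp
    rw [h1, h2]; norm_num
  · unfold avg
    have h0 : (0 : ℝ) < Fintype.card α := by exact_mod_cast Fintype.card_pos
    rw [div_pow, div_le_div_iff₀ (by positivity) h0]
    have h := sq_sum_le_card_mul_sum_sq (s := (Finset.univ : Finset α)) (f := f)
    rw [Finset.card_univ] at h
    nlinarith [h]

theorem avg_prod (f : α × β → ℝ) : avg f = avg (fun a => avg (fun b => f (a, b))) := by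
  unfold avg
  rw [Fintype.sum_prod_type, Fintype.card_prod, Nat.cast_mul, ← Finset.sum_div, div_div,
    mul_comm (Fintype.card α : ℝ)]

theorem avg_equiv (e : α ≃ β) (f : β → ℝ) : avg (fun a => f (e a)) = avg f := by
  unfold avg
  rw [Equiv.sum_comp e f, Fintype.card_congr e]

theorem avg_comm (f : α → β → ℝ) :
    avg (fun a => avg (fun b => f a b)) = avg (fun b => avg (fun a => f a b)) := by
  rw [← avg_prod (fun p : α × β => f p.1 p.2), ← avg_prod (fun p : β × α => f p.2 p.1),
    ← avg_equiv (Equiv.prodComm α β) (fun p : β × α => f p.2 p.1)]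
  rfl

end avg

section tuples

variable {V : Type*} [Fintype V]

theorem avg_fin_succ {k : ℕ} (f : (Fin (k + 1) → V) → ℝ) :
    avg f = avg (fun a => avg (fun Y : Fin k → V => f (Fin.cons a Y))) := by
  rw [← avg_prod (fun p : V × (Fin k → V) => f (Fin.cons p.1 p.2))]
  exact (avg_equiv (Fin.consEquiv (fun _ => V)) f).symm

theorem avg_fin_zero (f : (Fin 0 → V) → ℝ) (Y : Fin 0 → V) : avg f = f Y := by
  unfold avg
  rw [Fintype.sum_unique, Fintype.card_unique, Nat.cast_one, div_one]
  congr 1
  exact Subsingleton.elim _ _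

theorem avg_fin3 (f : (Fin 3 → V) → ℝ) :
    avg f = avg (fun a => avg (fun b => avg (fun c => f ![a, b, c]))) := by
  rw [avg_fin_succ]
  refine avg_congr fun a => ?_
  rw [avg_fin_succ]
  refine avg_congr fun b => ?_
  rw [avg_fin_succ]
  refine avg_congr fun c => ?_
  exact avg_fin_zero _ _

theorem avg_fin4 (f : (Fin 4 → V) → ℝ) :
    avg f = avg (fun a => avg (fun b => avg (fun c => avg (fun d => f ![a, b, c, d])))) := by
  rw [avg_fin_succ]
  refine avg_congr fun a => ?_
  rw [avg_fin3]
  rfl

theorem avg_fin5 (f : (Fin 5 → V) → ℝ) :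
    avg f = avg (fun a => avg (fun b => avg (fun c => avg (fun d => avg (fun e =>
      f ![a, b, c, d, e]))))) := by
  rw [avg_fin_succ]
  refine avg_congr fun a => ?_
  rw [avg_fin4]
  rfl

variable {ι κ : Type*} [Fintype ι] [Fintype κ] [DecidableEq ι] [DecidableEq κ]

theorem avg_perm (σ : Equiv.Perm ι) (f : (ι → V) → ℝ) :
    avg (fun Y : ι → V => f (Y ∘ σ)) = avg f := by
  exact avg_equiv (Equiv.arrowCongr σ.symm (Equiv.refl V)) f

theorem avg_update (v : ι) (f : (ι → V) → ℝ) [Nonempty V] :
    avg f = avg (fun Y : ι → V => avg (fun x => f (Function.update Y v x))) := by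
  have key : ∑ p : (ι → V) × V, f (Function.update p.1 v p.2) = ∑ p : (ι → V) × V, f p.1 := by
    refine Finset.sum_nbij' (fun p => (Function.update p.1 v p.2, p.1 v))
      (fun p => (Function.update p.1 v p.2, p.1 v)) ?_ ?_ ?_ ?_ ?_
    · intro p _; exact Finset.mem_univ _
    · intro p _; exact Finset.mem_univ _
    · rintro ⟨Y, x⟩ _; simp
    · rintro ⟨Y, x⟩ _; simp
    · rintro ⟨Y, x⟩ _; simp
  have h1 : avg (fun Y : ι → V => avg (fun x => f (Function.update Y v x)))
      = avg (fun p : (ι → V) × V => f (Function.update p.1 v p.2)) := by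
    rw [avg_prod]
  have h2 : avg (fun p : (ι → V) × V => f p.1) = avg f := by
    rw [avg_prod]
    refine avg_congr fun Y => ?_
    exact avg_const (α := V) (f Y)
  rw [h1, ← h2]
  unfold avg
  rw [key]

theorem avg_marginal [Nonempty V] (e : κ → ι) (he : Function.Injective e) (f : (κ → V) → ℝ) :
    avg (fun Y : ι → V => f (fun a => Y (e a))) = avg f := by
  classical
  set p : ι → Prop := fun i => i ∈ Set.range e with hp
  let E1 : (ι → V) ≃ ({i // p i} → V) × ({i // ¬ p i} → V) :=
    Equiv.piEquivPiSubtypeProd p (fun _ => V)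
  let E2 : κ ≃ {i // p i} := Equiv.ofInjective e he
  have h1 : avg (fun Y : ι → V => f (fun a => Y (e a)))
      = avg (fun q : ({i // p i} → V) × ({i // ¬ p i} → V) => f (fun a => q.1 (E2 a))) := by
    rw [← avg_equiv E1 (fun q : ({i // p i} → V) × ({i // ¬ p i} → V) =>
      f (fun a => q.1 (E2 a)))]
    rfl
  rw [h1, avg_prod]
  have h2 : avg (fun q : {i // p i} → V => avg (fun _ : {i // ¬ p i} → V =>
      f (fun a => q (E2 a)))) = avg (fun q : {i // p i} → V => f (fun a => q (E2 a))) := by
    refine avg_congr fun q => ?_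
    exact avg_const _
  rw [h2]
  exact avg_equiv (Equiv.arrowCongr E2.symm (Equiv.refl V)) f

theorem avg_one [Nonempty V] (i : ι) (f : V → ℝ) :
    avg (fun Y : ι → V => f (Y i)) = avg f := by
  have h := avg_marginal (V := V) (fun _ : Fin 1 => i) (fun a b _ => Subsingleton.elim a b)
    (fun Z => f (Z 0))
  rw [h, avg_fin_succ]
  refine avg_congr fun a => ?_
  exact avg_fin_zero (V := V) _ ![]

theorem avg_two [Nonempty V] (i j : ι) (hij : i ≠ j) (f : V → V → ℝ) :
    avg (fun Y : ι → V => f (Y i) (Y j)) = avg (fun a => avg (fun b => f a b)) := by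
  have hinj : Function.Injective (![i, j] : Fin 2 → ι) := by
    intro a b hab
    fin_cases a <;> fin_cases b <;> simp_all
  have h := avg_marginal (V := V) (![i, j] : Fin 2 → ι) hinj (fun Z => f (Z 0) (Z 1))
  have h' : avg (fun Y : ι → V => f (Y i) (Y j)) = avg (fun Z : Fin 2 → V => f (Z 0) (Z 1)) := by
    rw [← h]; rfl
  rw [h', avg_fin_succ]
  refine avg_congr fun a => ?_
  rw [avg_fin_succ]
  refine avg_congr fun b => ?_
  exact avg_fin_zero (V := V) _ ![]

theorem avg_ind_eq (a : V) : avg (fun b : V => ind (a = b)) = 1 / (Fintype.card V : ℝ) := by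
  unfold avg
  congr 1
  rw [Finset.sum_eq_single a]
  · exact ind_of rfl
  · intro b _ hb; exact ind_of_not (fun h => hb h.symm)
  · intro h; exact absurd (Finset.mem_univ a) h

theorem Pr_eq [Nonempty V] (i j : ι) (hij : i ≠ j) :
    avg (fun Y : ι → V => ind (Y i = Y j)) = 1 / (Fintype.card V : ℝ) := by
  rw [avg_two i j hij (fun a b => ind (a = b))]
  simp only [avg_ind_eq]
  exact avg_const _

theorem Pr_not_inj [Nonempty V] :
    avg (fun Y : ι → V => ind (¬ Function.Injective Y))
      ≤ (Fintype.card ι : ℝ) ^ 2 / (Fintype.card V : ℝ) := by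
  have hV : (0 : ℝ) < Fintype.card V := by exact_mod_cast Fintype.card_pos
  have h1 : ∀ Y : ι → V, ind (¬ Function.Injective Y)
      ≤ ∑ i : ι, ∑ j : ι, (if i = j then 0 else ind (Y i = Y j)) := by
    intro Y
    have hnn : ∀ i j : ι, 0 ≤ (if i = j then 0 else ind (Y i = Y j)) := by
      intro i j
      split_ifs
      · exact le_rfl
      · exact ind_nonneg _
    by_cases h : Function.Injective Y
    · rw [ind_of_not (not_not.mpr h)]
      exact Finset.sum_nonneg fun i _ => Finset.sum_nonneg fun j _ => hnn i j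
    · rw [ind_of h]
      rw [Function.not_injective_iff] at h
      obtain ⟨i, j, hY, hij⟩ := h
      calc (1 : ℝ) = (if i = j then 0 else ind (Y i = Y j)) := by
            rw [if_neg hij, ind_of hY]
        _ ≤ ∑ j' : ι, (if i = j' then 0 else ind (Y i = Y j')) :=
            Finset.single_le_sum (f := fun j' => if i = j' then 0 else ind (Y i = Y j'))
              (fun j' _ => hnn i j') (Finset.mem_univ j)
        _ ≤ _ := Finset.single_le_sum
              (f := fun i' => ∑ j' : ι, (if i' = j' then 0 else ind (Y i' = Y j')))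
              (fun i' _ => Finset.sum_nonneg fun j' _ => hnn i' j') (Finset.mem_univ i)
  calc avg (fun Y : ι → V => ind (¬ Function.Injective Y))
      ≤ avg (fun Y : ι → V => ∑ i : ι, ∑ j : ι, (if i = j then 0 else ind (Y i = Y j))) :=
        avg_mono h1
    _ = ∑ i : ι, ∑ j : ι, avg (fun Y : ι → V => (if i = j then 0 else ind (Y i = Y j))) := by
        rw [avg_sum]
        refine Finset.sum_congr rfl fun i _ => ?_
        rw [avg_sum]
    _ ≤ ∑ _i : ι, ∑ _j : ι, 1 / (Fintype.card V : ℝ) := by
        refine Finset.sum_le_sum fun i _ => Finset.sum_le_sum fun j _ => ?_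
        by_cases hij : i = j
        · simp only [if_pos hij]
          rw [avg_zero]; positivity
        · simp only [if_neg hij]
          rw [Pr_eq i j hij]
    _ = (Fintype.card ι : ℝ) ^ 2 / (Fintype.card V : ℝ) := by
        simp only [Finset.sum_const, Finset.card_univ, nsmul_eq_mul]
        ring

end tuples

end H52.CarAvg
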